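import Pool.Agent.Helper50_PP.Res
import Pool.Agent.Helper46_PP.Alg

/-!
# Squad PP, module TRF: blocks and central characters
-/

open scoped BigOperators

noncomputable section

namespace Pool.Agent.PP.H50

open Pool.Agent.PP Pool.Agent.Helper51_AWC Pool.Agent.Helper79_WRA

section fitting

variable {F H : Type} [Field F] [Group H] [Finite H]

theorem exists_fn {x : MonoidAlgebra F H} (hx : x ∈ Subalgebra.center F (MonoidAlgebra F H)) :
    ∃ a : H → F, IsCl a ∧ ma a = x := by
  obtain ⟨a, rfl⟩ := ma_surjective x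
  exact ⟨a, (isCl_iff a).2 hx, rfl⟩

theorem isCl_mulF {a b : H → F} (ha : IsCl a) (hb : IsCl b) : IsCl (mulF a b) := by
  rw [isCl_iff] at ha hb ⊢
  rw [ma_mul]
  exact Subalgebra.mul_mem _ ha hb

/-- a class function is nilpotent or invertible on a block -/
theorem blk_dich {e b : H → F} (he : IsBlk e) (hb : IsCl b) :
    (∃ n : ℕ, (mulF b)^[n] e = 0) ∨ ∃ c, IsCl c ∧ mulF (mulF c b) e = e := by
  let Z := Subalgebra.center F (MonoidAlgebra F H)
  have hfin : Module.Finite F (MonoidAlgebra F H) :=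
    Module.Finite.equiv (maL : (H → F) ≃ₗ[F] MonoidAlgebra F H)
  have hZ : Module.Finite F Z := inferInstance
  have hA : IsArtinianRing Z := IsArtinianRing.of_finite F Z
  let β : Z := ⟨ma b, (isCl_iff b).1 hb⟩
  let ε : Z := ⟨ma e, (isCl_iff e).1 he.1.1⟩
  obtain ⟨n, y, hy⟩ := IsArtinian.exists_pow_succ_smul_dvd (M := Z) β (1 : Z)
  have h1 : β ^ (n + 1) * y = β ^ n := by
    have := hy
    rwa [smul_eq_mul, smul_eq_mul, mul_one] at this
  have h2 : ∀ k : ℕ, β ^ (n + 1 + k) * y ^ k = β ^ (n + 1) := by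
    intro k
    induction k with
    | zero => rw [pow_zero, mul_one, add_zero]
    | succ k ih =>
      calc β ^ (n + 1 + (k + 1)) * y ^ (k + 1) = β ^ (k + 1) * (β ^ (n + 1) * y) * y ^ k := by ring
        _ = β ^ (k + 1) * β ^ n * y ^ k := by rw [h1]
        _ = β ^ (n + 1 + k) * y ^ k := by ring
        _ = _ := ih
  let f : Z := β ^ (n + 1) * y ^ (n + 1)
  have h3 : β ^ (n + 1) * f = β ^ (n + 1) := by
    calc β ^ (n + 1) * f = β ^ (n + 1 + (n + 1)) * y ^ (n + 1) := by simp only [f]; ring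
      _ = _ := h2 (n + 1)
  have h4 : f * f = f := by
    calc f * f = (β ^ (n + 1) * f) * y ^ (n + 1) := by simp only [f]; ring
      _ = f := by rw [h3]
  obtain ⟨φ, hφ, hφ'⟩ := exists_fn f.2
  have h5 : IsIdem φ := by
    rw [isIdem_iff, hφ']
    exact ⟨f.2, congrArg Subtype.val h4⟩
  rcases he.2.2 φ h5 with h6 | h6
  · right
    obtain ⟨c, hc, hc'⟩ := exists_fn (β ^ n * y ^ (n + 1)).2
    refine ⟨c, hc, ?_⟩
    apply ma_injective
    rw [ma_mul, ma_mul, hc']
    have h7 : ma e * ma φ = ma e := by rw [← ma_mul, h6]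
    have h8 : ε * f = ε := Subtype.ext (by
      change ma e * (f : MonoidAlgebra F H) = ma e
      rw [← hφ', h7])
    have h9 : (β ^ n * y ^ (n + 1)) * β * ε = ε := by
      calc (β ^ n * y ^ (n + 1)) * β * ε = ε * f := by simp only [f]; ring
        _ = ε := h8
    exact congrArg Subtype.val h9
  · left
    refine ⟨n + 1, ?_⟩
    apply ma_injective
    rw [ma_iterate, ma_zero]
    have h7 : ma e * ma φ = 0 := by rw [← ma_mul, h6, ma_zero]
    have h8 : ε * f = 0 := Subtype.ext (by
      change ma e * (f : MonoidAlgebra F H) = 0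
      rw [← hφ', h7])
    have h9 : β ^ (n + 1) * ε = 0 := by
      calc β ^ (n + 1) * ε = (β ^ (n + 1) * f) * ε := by rw [h3]
        _ = β ^ (n + 1) * (ε * f) := by ring
        _ = 0 := by rw [h8, mul_zero]
    exact congrArg Subtype.val h9

/-- a homomorphism from the class functions (the centre of the group ring) to the field -/
structure IsChar (lam : (H → F) → F) : Prop where
  sub : ∀ a b, IsCl a → IsCl b → lam (a - b) = lam a - lam b
  smul : ∀ (c : F) a, IsCl a → lam (c • a) = c * lam a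
  mul : ∀ a b, IsCl a → IsCl b → lam (mulF a b) = lam a * lam b

theorem IsChar.iterate {lam : (H → F) → F} (h : IsChar lam) {a b : H → F} (ha : IsCl a)
    (hb : IsCl b) (n : ℕ) : IsCl ((mulF a)^[n] b) ∧ lam ((mulF a)^[n] b) = lam a ^ n * lam b := by
  induction n with
  | zero =>
    rw [Function.iterate_zero, pow_zero, one_mul]
    exact ⟨hb, rfl⟩
  | succ n ih =>
    rw [Function.iterate_succ_apply', h.mul _ _ ha ih.1, ih.2, pow_succ']
    exact ⟨isCl_mulF ha ih.1, by ring⟩

omit [Finite H] in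
theorem IsChar.zero {lam : (H → F) → F} (h : IsChar lam) : lam 0 = 0 := by
  have h1 : IsCl (0 : H → F) := fun _ _ => rfl
  have := h.sub 0 0 h1 h1
  rwa [sub_self, sub_self] at this

theorem IsChar.one {lam : (H → F) → F} (h : IsChar lam) {e : H → F} (he : IsCl e)
    (h1 : lam e = 1) : lam (dl F (1 : H)) = 1 := by
  have h2 := h.mul (dl F (1 : H)) e H46.isIdem_one.1 he
  rw [H46.one_mulF, h1, mul_one] at h2
  exact h2.symm

/-- an element with value zero is nilpotent on the block -/
theorem nil_of_zero {e b : H → F} (he : IsBlk e) (hb : IsCl b) {lam : (H → F) → F}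
    (h : IsChar lam) (h1 : lam e = 1) (h2 : lam b = 0) : ∃ n : ℕ, (mulF b)^[n] e = 0 := by
  rcases blk_dich he hb with h3 | ⟨c, hc, h3⟩
  · exact h3
  · exfalso
    have h4 := congrArg lam h3
    rw [h.mul _ _ (isCl_mulF hc hb) he.1.1, h.mul _ _ hc hb, h2, h1, mul_zero, zero_mul] at h4
    exact zero_ne_one h4

theorem zero_of_nil {e b : H → F} (he : IsCl e) (hb : IsCl b) {lam : (H → F) → F}
    (h : IsChar lam) (h1 : lam e = 1) {n : ℕ} (h2 : (mulF b)^[n] e = 0) : lam b = 0 := by
  have h3 := (h.iterate hb he n).2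
  rw [h2, h.zero, h1, mul_one] at h3
  exact eq_zero_of_pow_eq_zero h3.symm

/-- there is only one central character of a block -/
theorem char_uniq {e : H → F} (he : IsBlk e) {lam mu : (H → F) → F} (h : IsChar lam)
    (k : IsChar mu) (h1 : lam e = 1) (k1 : mu e = 1) {b : H → F} (hb : IsCl b) :
    lam b = mu b := by
  have ho : IsCl (dl F (1 : H)) := H46.isIdem_one.1
  have hs : IsCl (lam b • dl F (1 : H)) := (cfs F H).smul_mem (lam b) ho
  have hc : IsCl (b - lam b • dl F (1 : H)) := (cfs F H).sub_mem hb hs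
  have h2 : lam (b - lam b • dl F (1 : H)) = 0 := by
    rw [h.sub _ _ hb hs, h.smul _ _ ho, h.one he.1.1 h1, mul_one, sub_self]
  obtain ⟨n, hn⟩ := nil_of_zero he hc h h1 h2
  have h3 := zero_of_nil he.1.1 hc k k1 hn
  rw [k.sub _ _ hb hs, k.smul _ _ ho, k.one he.1.1 k1, mul_one] at h3
  exact (sub_eq_zero.1 h3).symm

end fitting

attribute [local instance] Ideal.Quotient.field

section bid

variable {H : Type} [Group H] [Finite H] {M : Ideal (integralClosure ℤ ℂ)} [hM : M.IsMaximal]

theorem isChar_res {χ : H → ℂ} (hχ : χ ∈ Irr H) : IsChar (fun a : H → FF M => res M a χ) := by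
  have := Fintype.ofFinite H
  exact ⟨fun a b _ _ => res_sub a b χ, fun c a _ => res_smul c a χ,
    fun a b ha hb => res_mul ha hb hχ⟩

omit hM [Finite H] in
theorem omega_isConj (ϑ : H → ℂ) {g h : H} (hgh : IsConj g h) :
    omega (MonoidHom.id H) ϑ g = omega (MonoidHom.id H) ϑ h := by
  unfold omega
  congr 1
  apply finsum_congr
  intro x
  have : IsConj g (MonoidHom.id H x) = IsConj h (MonoidHom.id H x) :=
    propext ⟨fun h' => hgh.symm.trans h', fun h' => hgh.trans h'⟩
  rw [this]

omit [Finite H] in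
theorem isCl_clsum {F : Type} [Field F] (x : H) : IsCl (clsum F (⊤ : Subgroup H) x) := by
  intro y z
  unfold clsum
  have : (∃ q ∈ (⊤ : Subgroup H), z * y * z⁻¹ = q * x * q⁻¹) ↔
      ∃ q ∈ (⊤ : Subgroup H), y = q * x * q⁻¹ := by
    constructor
    · rintro ⟨q, -, hq⟩
      refine ⟨z⁻¹ * q, Subgroup.mem_top _, ?_⟩
      have : y = z⁻¹ * (z * y * z⁻¹) * z := by group
      rw [this, hq]; group
    · rintro ⟨q, -, hq⟩
      refine ⟨z * q, Subgroup.mem_top _, ?_⟩
      rw [hq]; group
  by_cases hc : ∃ q ∈ (⊤ : Subgroup H), y = q * x * q⁻¹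
  · rw [if_pos (this.2 hc), if_pos hc]
  · rw [if_neg (fun h => hc (this.1 h)), if_neg hc]

/-- the value of the label is the value at the class sum -/
theorem res_clsum (ϑ : H → ℂ) (g : H) :
    res M (clsum (FF M) (⊤ : Subgroup H) g) ϑ = labF M ϑ g := by
  classical
  have := Fintype.ofFinite (ConjClasses H)
  rw [res, finsum_eq_sum_of_fintype, Finset.sum_eq_single (ConjClasses.mk g)]
  · have h1 : clsum (FF M) (⊤ : Subgroup H) g (Quotient.out (ConjClasses.mk g)) = 1 := by
      obtain ⟨h, hh⟩ := exists_out g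
      rw [clsum, if_pos ⟨h, Subgroup.mem_top _, hh.symm⟩]
    rw [h1, one_mul]
    obtain ⟨h, hh⟩ := exists_out g
    rw [labF, omega_isConj ϑ (isConj_iff.2 ⟨h, hh⟩ : IsConj g (Quotient.out (ConjClasses.mk g)))]
  · intro c _ hc
    rw [clsum, if_neg, zero_mul]
    rintro ⟨q, -, hq⟩
    apply hc
    have h1 : ConjClasses.mk (Quotient.out c) = c := Quotient.out_eq c
    rw [← h1, hq, ConjClasses.mk_eq_mk_iff_isConj]
    exact (isConj_iff.2 ⟨q, rfl⟩ : IsConj g _).symm
  · intro h
    exact absurd (Finset.mem_univ _) h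

/-- existence of the block idempotent -/
theorem exists_block {χ : H → ℂ} (hχ : χ ∈ Irr H) :
    ∃ e : H → FF M, IsBlk e ∧ res M e χ = 1 := by
  have := Fintype.ofFinite H
  by_contra hcon
  push Not at hcon
  have h1 : ∀ e : H → FF M, IsIdem e → res M e χ = 0 := by
    apply H46.idem_induction
    · exact res_zero χ
    · intro b hb
      exact (res_idem hb.1 hχ).resolve_right (hcon b hb)
    · intro e₁ e₂ _ _ _ h1 h2
      rw [res_add, h1, h2, add_zero]
  have h2 := h1 _ H46.isIdem_one
  rw [res_one (irr_one_ne hχ) (fun g => omega_integral _ hχ g)] at h2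
  exact one_ne_zero h2

/-- equal labels -/
theorem lab_of_res {e : H → FF M} (he : IsBlk e) {lam : (H → FF M) → FF M} (h : IsChar lam)
    (h1 : lam e = 1) {χ : H → ℂ} (hχ : χ ∈ Irr H) (h2 : res M e χ = 1) (g : H) :
    lam (clsum (FF M) (⊤ : Subgroup H) g) = labF M χ g := by
  rw [← res_clsum]
  exact char_uniq he h (isChar_res hχ) h1 h2 (isCl_clsum g)

end bid

theorem bid : BidStmt := by
  intro ℓ hl M hM hlM G _ _ χ hχ
  obtain ⟨e, he, h1⟩ := exists_block (M := M) hχ
  refine ⟨e, he, h1, ?_⟩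
  intro ψ hψ hne
  have := Fintype.ofFinite G
  rcases res_idem he.1 hψ with h2 | h2
  · exact h2
  · exfalso
    apply hne
    funext g
    rw [← res_clsum]
    exact lab_of_res he (isChar_res hψ) h2 hχ h1 g

theorem chp : ChpStmt := by
  intro ℓ hl M hM hlM H _ _ e he
  have := Fintype.ofFinite H
  exact chp_main he

end Pool.Agent.PP.H50
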