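import Pool.Agent.Helper94_PP.StmtsKR

/-!
# Squad PP, module FFA: the residue field of the algebraic integers
-/

noncomputable section

namespace Pool.Agent.PP.H50

open Pool.Agent.PP Pool.Agent.Helper51_AWC Pool.Agent.Helper79_WRA

theorem charP_ff (ℓ : ℕ) (hl : ℓ.Prime) (M : Ideal (integralClosure ℤ ℂ)) [hM : M.IsMaximal]
    (h : (ℓ : integralClosure ℤ ℂ) ∈ M) : CharP (FF M) ℓ := by
  have h0 : ((ℓ : ℕ) : FF M) = 0 := by
    have : Ideal.Quotient.mk M (ℓ : integralClosure ℤ ℂ) = 0 := Ideal.Quotient.eq_zero_iff_mem.mpr h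
    rwa [map_natCast] at this
  have hn : Nontrivial (FF M) := Ideal.Quotient.nontrivial_iff.mpr hM.ne_top
  have := CharP.ringChar_of_prime_eq_zero (R := FF M) hl h0
  rw [← this]
  exact ringChar.charP (FF M)

theorem closed_ff (M : Ideal (integralClosure ℤ ℂ)) [hM : M.IsMaximal] :
    letI := Ideal.Quotient.field M; IsAlgClosed (FF M) := by
  letI := Ideal.Quotient.field M
  apply IsAlgClosed.of_exists_root
  intro p hp hirr
  have hlift : p ∈ Polynomial.lifts (Ideal.Quotient.mk M) := by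
    rw [Polynomial.mem_lifts]
    exact Polynomial.map_surjective _ Ideal.Quotient.mk_surjective p
  obtain ⟨q, hq, hdeg, hmon⟩ := Polynomial.lifts_and_degree_eq_and_monic hlift hp
  have hpd : 0 < p.degree := Polynomial.degree_pos_of_irreducible hirr
  have hqd : (q.map (algebraMap (integralClosure ℤ ℂ) ℂ)).degree ≠ 0 := by
    rw [hmon.degree_map, hdeg]
    exact ne_of_gt hpd
  obtain ⟨z, hz⟩ := IsAlgClosed.exists_root _ hqd
  have hz' : Polynomial.eval₂ (algebraMap (integralClosure ℤ ℂ) ℂ) z q = 0 := by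
    rw [← Polynomial.eval_map]; exact hz
  have hint : IsIntegral (integralClosure ℤ ℂ) z := ⟨q, hmon, hz'⟩
  have hint2 : IsIntegral ℤ z := by
    haveI : Algebra.IsIntegral ℤ (integralClosure ℤ ℂ) := inferInstance
    exact isIntegral_trans z hint
  refine ⟨Ideal.Quotient.mk M ⟨z, hint2⟩, ?_⟩
  have h1 : Polynomial.eval (⟨z, hint2⟩ : integralClosure ℤ ℂ) q = 0 := by
    apply Subtype.ext
    have := Polynomial.hom_eval₂ q (RingHom.id _) (algebraMap (integralClosure ℤ ℂ) ℂ)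
      (⟨z, hint2⟩ : integralClosure ℤ ℂ)
    rw [RingHom.comp_id] at this
    rw [← Polynomial.eval₂_id]
    exact this.trans hz'
  rw [← hq, Polynomial.eval_map, Polynomial.eval₂_at_apply, h1, map_zero]

theorem tors_ff (ℓ : ℕ) (hl : ℓ.Prime) (M : Ideal (integralClosure ℤ ℂ)) [hM : M.IsMaximal]
    (h : (ℓ : integralClosure ℤ ℂ) ∈ M) (w : FF M) (hw : w ≠ 0) : ∃ n : ℕ, 0 < n ∧ w ^ n = 1 := by
  letI := Ideal.Quotient.field M
  haveI := charP_ff ℓ hl M h
  haveI : Fact ℓ.Prime := ⟨hl⟩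
  letI : Algebra (ZMod ℓ) (FF M) := ZMod.algebra (FF M) ℓ
  obtain ⟨a, rfl⟩ := Ideal.Quotient.mk_surjective w
  have hint : IsIntegral ℤ a := by
    haveI : Algebra.IsIntegral ℤ (integralClosure ℤ ℂ) := inferInstance
    exact Algebra.IsIntegral.isIntegral a
  have h2 : IsIntegral ℤ (Ideal.Quotient.mk M a) := by
    have := hint.map (Ideal.Quotient.mkₐ ℤ M)
    exact this
  have h3 : IsIntegral (ZMod ℓ) (Ideal.Quotient.mk M a) := by
    obtain ⟨p, hp, hp0⟩ := h2
    refine ⟨p.map (Int.castRingHom (ZMod ℓ)), hp.map _, ?_⟩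
    rw [Polynomial.eval₂_map]
    have : (algebraMap (ZMod ℓ) (FF M)).comp (Int.castRingHom (ZMod ℓ)) = algebraMap ℤ (FF M) :=
      RingHom.ext_int _ _
    rw [this]
    exact hp0
  set w := Ideal.Quotient.mk M a with hwdef
  have hfin : Module.Finite (ZMod ℓ) (Algebra.adjoin (ZMod ℓ) {w}) :=
    ⟨(Submodule.fg_top _).mpr (h3.fg_adjoin_singleton)⟩
  haveI : Finite (Algebra.adjoin (ZMod ℓ) {w}) := Module.finite_of_finite (ZMod ℓ)
  let g : ℕ → Algebra.adjoin (ZMod ℓ) {w} := fun n =>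
    ⟨w ^ n, Subalgebra.pow_mem _ (Algebra.subset_adjoin (Set.mem_singleton w)) n⟩
  obtain ⟨i, j, hij, hne⟩ : ∃ i j, g i = g j ∧ i ≠ j := by
    by_contra hcon
    push Not at hcon
    have hinj : Function.Injective g := fun i j hh => hcon i j hh
    exact not_injective_infinite_finite g hinj
  have hval : w ^ i = w ^ j := congrArg Subtype.val hij
  rcases lt_or_gt_of_ne hne with hlt | hlt
  · refine ⟨j - i, Nat.sub_pos_of_lt hlt, ?_⟩
    have : w ^ i * w ^ (j - i) = w ^ i * 1 := by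
      rw [← pow_add, Nat.add_sub_cancel' hlt.le, mul_one, hval]
    exact mul_left_cancel₀ (pow_ne_zero i hw) this
  · refine ⟨i - j, Nat.sub_pos_of_lt hlt, ?_⟩
    have : w ^ j * w ^ (i - j) = w ^ j * 1 := by
      rw [← pow_add, Nat.add_sub_cancel' hlt.le, mul_one, hval]
    exact mul_left_cancel₀ (pow_ne_zero j hw) this

theorem fld : FldStmt := by
  intro ℓ hl M hM h
  exact @GoodF.mk ℓ (FF M) (Ideal.Quotient.field M) hl (charP_ff ℓ hl M h) (closed_ff M)
    (fun w hw => tors_ff ℓ hl M h w hw)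

end Pool.Agent.PP.H50
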