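import Pool.Agent.Helper50_PP.Mat

/-!
# Squad PP, module TRF: the characteristic polynomial over the complex numbers
-/

open scoped BigOperators
open Polynomial

noncomputable section

namespace Pool.Agent.PP.H50

open Pool.Agent.PP Pool.Agent.Helper51_AWC Pool.Agent.Helper79_WRA

section chi

variable {H : Type} [Group H] [Fintype H]

/-- the central character of `χ` at the class function `a` -/
def om (a χ : H → ℂ) : ℂ := (∑ t, a t * χ t) / χ 1

theorem act_om {V : Type*} [AddCommGroup V] [Module ℂ V] [FiniteDimensional ℂ V]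
    (ρ : Representation ℂ H V) [ρ.IsIrreducible] {a : H → ℂ} (ha : ∀ x y, a (y * x * y⁻¹) = a x) :
    act ρ a = om a ρ.character • LinearMap.id := by
  obtain ⟨c, hc⟩ := act_scalar ρ a ha
  rw [hc]
  have h1 := act_trace ρ a
  rw [hc, map_smul, smul_eq_mul] at h1
  have h2 : LinearMap.trace ℂ V LinearMap.id = ρ.character 1 := by
    rw [Representation.character, map_one]; rfl
  rw [h2] at h1
  have h3 : ρ.character 1 ≠ 0 := irr_one_ne (mem_Irr_of_irreducible ρ)
  have h4 : om a ρ.character = c := by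
    rw [om, ← h1, mul_div_assoc, div_self h3, mul_one]
  rw [h4]

theorem eigen {a χ : H → ℂ} (ha : ∀ x y, a (y * x * y⁻¹) = a x) (hχ : χ ∈ Irr H) (x : H) :
    ∑ t, a t * χ (t * x) = om a χ * χ x := by
  obtain ⟨n, ρ, hρ, rfl⟩ := hχ
  have h1 := act_om ρ ha
  have h2 : LinearMap.trace ℂ _ (act ρ a * ρ x) = ∑ t, a t * ρ.character (t * x) := by
    rw [act, Finset.sum_mul, map_sum]
    refine Finset.sum_congr rfl fun t _ => ?_
    rw [smul_mul_assoc, ← map_mul, map_smul, smul_eq_mul]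
    rfl
  rw [← h2, h1, smul_mul_assoc, map_smul, smul_eq_mul]
  rfl

/-- central characters are multiplicative -/
theorem om_mul {a b χ : H → ℂ}
    (hb : ∀ x y, b (y * x * y⁻¹) = b x) (hχ : χ ∈ Irr H) :
    om (fun y => ∑ h, a h * b (h⁻¹ * y)) χ = om a χ * om b χ := by
  have h1 : χ 1 ≠ 0 := irr_one_ne hχ
  rw [om, div_eq_iff h1]
  have h2 : ∑ t, (∑ h, a h * b (h⁻¹ * t)) * χ t = ∑ h, a h * ∑ t, b t * χ (t * h) := by
    simp_rw [Finset.sum_mul, Finset.mul_sum]
    rw [Finset.sum_comm]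
    refine Finset.sum_congr rfl fun h _ => ?_
    rw [← Equiv.sum_comp (Equiv.mulLeft h) (fun t => a h * b (h⁻¹ * t) * χ t)]
    refine Finset.sum_congr rfl fun t _ => ?_
    rw [Equiv.coe_mulLeft, inv_mul_cancel_left, irr_mul_comm hχ t h, mul_assoc]
  rw [h2]
  have h3 : ∀ h, ∑ t, b t * χ (t * h) = om b χ * χ h := fun h => eigen hb hχ h
  simp_rw [h3]
  have h4 : ∑ h, a h * (om b χ * χ h) = om b χ * ∑ h, a h * χ h := by
    rw [Finset.mul_sum]
    refine Finset.sum_congr rfl fun h _ => ?_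
    ring
  rw [h4]
  have h5 : ∑ h, a h * χ h = om a χ * χ 1 := by
    rw [om, div_mul_cancel₀ _ h1]
  rw [h5]
  ring

/-- a class function is a combination of irreducible characters -/
theorem decomp [Fintype (Irr H)] (f : H → ℂ) (hf : ∀ x y, f (y * x * y⁻¹) = f x) :
    ∃ m : Irr H → ℂ, f = ∑ χ : Irr H, m χ • (χ : H → ℂ) := by
  classical
  have hc : (Fintype.card H : ℂ) ≠ 0 := by exact_mod_cast Fintype.card_ne_zero
  obtain ⟨m, hm⟩ : ∃ m : Irr H → ℂ, ∀ χ : Irr H, m χ * Fintype.card H =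
      ∑ y, f y * (χ : H → ℂ) y⁻¹ :=
    ⟨fun χ => (∑ y, f y * (χ : H → ℂ) y⁻¹) / Fintype.card H, fun χ => div_mul_cancel₀ _ hc⟩
  refine ⟨m, ?_⟩
  rw [← sub_eq_zero]
  apply irr_complete'
  · intro g h
    simp only [Pi.sub_apply, Finset.sum_apply, Pi.smul_apply, hf]
    congr 1
    refine Finset.sum_congr rfl fun χ _ => ?_
    rw [irr_conj χ.2]
  · intro ψ hψ
    simp only [Pi.sub_apply, Finset.sum_apply, Pi.smul_apply, smul_eq_mul, sub_mul,
      Finset.sum_sub_distrib, Finset.sum_mul]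
    rw [← hm ⟨ψ, hψ⟩, Finset.sum_comm, Finset.sum_eq_single_of_mem ⟨ψ, hψ⟩ (Finset.mem_univ _)]
    · simp_rw [mul_assoc]
      rw [← Finset.mul_sum, irr_orth_self hψ, sub_self]
    · intro χ _ hne
      simp_rw [mul_assoc]
      rw [← Finset.mul_sum, irr_orth_ne χ.2 hψ (fun h => hne (Subtype.ext h)), mul_zero]

variable [Fintype (ConjClasses H)] [DecidableEq (ConjClasses H)]

theorem charpoly_NN [Fintype (Irr H)] {a : H → ℂ} (ha : ∀ x y, a (y * x * y⁻¹) = a x) :
    (NN a).charpoly = ∏ χ : Irr H, (X - C (om a χ)) := by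
  classical
  let v : Irr H → (ConjClasses H → ℂ) := fun χ c => (χ : H → ℂ) (Quotient.out c)
  have hv : ∀ χ : Irr H, ∀ x, v χ (ConjClasses.mk x) = (χ : H → ℂ) x := by
    intro χ x
    obtain ⟨h, hh⟩ := exists_out x
    change (χ : H → ℂ) (Quotient.out (ConjClasses.mk x)) = _
    rw [← hh, irr_conj χ.2]
  have hJ : ∀ χ : Irr H, LinearMap.funLeft ℂ ℂ (ConjClasses.mk (α := H)) (v χ) = (χ : H → ℂ) :=
    fun χ => funext fun x => hv χ x
  have hli : LinearIndependent ℂ v := by
    apply LinearIndependent.of_comp (LinearMap.funLeft ℂ ℂ (ConjClasses.mk (α := H)))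
    have h1 := irr_linearIndependent (G := H)
    have h2 : (LinearMap.funLeft ℂ ℂ (ConjClasses.mk (α := H))) ∘ v =
        fun χ : Irr H => (χ : H → ℂ) := funext hJ
    rw [h2]
    exact h1
  have hsp : ⊤ ≤ Submodule.span ℂ (Set.range v) := by
    intro g _
    obtain ⟨m, h1⟩ := decomp (fun x => g (ConjClasses.mk x)) (by
      intro x y
      congr 1
      rw [ConjClasses.mk_eq_mk_iff_isConj]
      exact (isConj_iff.2 ⟨y, rfl⟩ : IsConj x _).symm)
    have h2 : g = ∑ χ : Irr H, m χ • v χ := by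
      funext c
      have h3 := congrFun h1 (Quotient.out c)
      have h4 : ConjClasses.mk (Quotient.out c) = c := Quotient.out_eq c
      rw [h4] at h3
      rw [h3, Finset.sum_apply, Finset.sum_apply]
      rfl
    rw [h2]
    apply Submodule.sum_mem
    intro χ _
    exact Submodule.smul_mem _ _ (Submodule.subset_span ⟨χ, rfl⟩)
  let b := Module.Basis.mk hli hsp
  have hb : ∀ χ, b χ = v χ := fun χ => by rw [Module.Basis.mk_apply]
  have h1 : (Matrix.toLin' (NN a)).charpoly = (NN a).charpoly := by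
    rw [← LinearMap.charpoly_toMatrix (Matrix.toLin' (NN a)) (Pi.basisFun ℂ (ConjClasses H))]
    congr 1
    exact LinearMap.toMatrix'_toLin' (NN a)
  rw [← h1, ← LinearMap.charpoly_toMatrix (Matrix.toLin' (NN a)) b]
  have h2 : LinearMap.toMatrix b b (Matrix.toLin' (NN a)) =
      Matrix.diagonal (fun χ : Irr H => om a χ) := by
    ext χ ψ
    rw [LinearMap.toMatrix_apply]
    have h3 : Matrix.toLin' (NN a) (b ψ) = om a ψ • b ψ := by
      rw [hb]
      funext c
      rw [Matrix.toLin'_apply, NN_mulVec, Pi.smul_apply, smul_eq_mul]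
      simp_rw [hv]
      exact eigen ha ψ.2 (Quotient.out c)
    rw [h3, map_smul, Module.Basis.repr_self, Finsupp.smul_apply, Matrix.diagonal_apply,
      Finsupp.single_apply, smul_eq_mul]
    by_cases h4 : ψ = χ
    · subst h4
      rw [if_pos rfl, if_pos rfl, mul_one]
    · rw [if_neg h4, if_neg (Ne.symm h4), mul_zero]
  rw [h2, Matrix.charpoly_diagonal]

end chi

end Pool.Agent.PP.H50
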