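import Pool.Agent.Helper50_PP.Bid

/-!
# Squad PP, module TRF: every block contains an ordinary character
-/

open scoped BigOperators

noncomputable section

namespace Pool.Agent.PP.H50

open Pool.Agent.PP Pool.Agent.Helper51_AWC Pool.Agent.Helper79_WRA

attribute [local instance] Ideal.Quotient.field

variable {H : Type} [Group H] [Finite H] {M : Ideal (integralClosure ℤ ℂ)} [hM : M.IsMaximal]

omit hM [Finite H] in
/-- T4: the residue depends only on the label -/
theorem res_eq_lab (a : H → FF M) (ϑ : H → ℂ) :
    res M a ϑ = ∑ᶠ c : ConjClasses H, a (Quotient.out c) * labF M ϑ (Quotient.out c) := rfl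

omit hM [Finite H] in
/-- T4: equal labels, equal residues -/
theorem res_of_lab {ϑ ψ : H → ℂ} (h : labF M ψ = labF M ϑ) (a : H → FF M) :
    res M a ψ = res M a ϑ := by
  rw [res_eq_lab, res_eq_lab, h]

/-- a central idempotent different from zero contains an ordinary character -/
theorem exists_irr_res {e : H → FF M} (he : IsIdem e) (h0 : e ≠ 0) :
    ∃ χ ∈ Irr H, res M e χ = 1 := by
  have := Fintype.ofFinite H
  by_contra hcon
  push Not at hcon
  have h1 : {ϑ : H → ℂ | ϑ ∈ Irr H ∧ res M e ϑ = 1} = ∅ := by
    ext ϑ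
    constructor
    · rintro ⟨h, h'⟩
      exact (hcon ϑ h h').elim
    · intro h
      exact h.elim
  have h2 := chp_main (M := M) he
  rw [h1, Set.ncard_empty] at h2
  have h3 : (cfs (FF M) H).map (actL e) = ⊥ := by
    have : Module.Finite (FF M) (H → FF M) := inferInstance
    exact Submodule.finrank_eq_zero.1 h2
  have h4 : actF e (dl (FF M) (1 : H)) = 0 := by
    have h5 : actL e (dl (FF M) (1 : H)) ∈ (cfs (FF M) H).map (actL e) :=
      Submodule.mem_map_of_mem (show dl (FF M) (1 : H) ∈ cfs (FF M) H from H46.isIdem_one.1)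
    rw [h3] at h5
    exact (Submodule.mem_bot _).1 h5
  apply h0
  funext x
  have h6 := congrFun h4 x⁻¹
  classical
  rw [actF, finsum_eq_sum_of_fintype, Finset.sum_eq_single x] at h6
  · rw [dl, if_pos (mul_inv_cancel x), mul_one] at h6
    exact h6
  · intro t _ ht
    rw [dl, if_neg, mul_zero]
    intro h7
    exact ht (mul_inv_eq_one.1 h7)
  · intro h
    exact absurd (Finset.mem_univ _) h

/-- T3: a block idempotent comes from an ordinary character, and only the characters with its
label are in the block -/
theorem exists_irr_blk {e : H → FF M} (he : IsBlk e) :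
    ∃ χ ∈ Irr H, res M e χ = 1 ∧ ∀ ψ ∈ Irr H, labF M ψ ≠ labF M χ → res M e ψ = 0 := by
  have := Fintype.ofFinite H
  obtain ⟨χ, hχ, h1⟩ := exists_irr_res he.1 he.2.1
  refine ⟨χ, hχ, h1, ?_⟩
  intro ψ hψ hne
  rcases res_idem he.1 hψ with h2 | h2
  · exact h2
  · exfalso
    apply hne
    funext g
    rw [← res_clsum]
    exact lab_of_res he (isChar_res hψ) h2 hχ h1 g

end Pool.Agent.PP.H50
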