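import Pool.Agent.Helper50_PP.Bid
import Pool.Agent.Helper83_WRA.Pos

/-!
# Squad PP, module TRF: positive defect
-/

open scoped BigOperators

noncomputable section

namespace Pool.Agent.PP.H50

open Pool.Agent.PP Pool.Agent.Helper51_AWC Pool.Agent.Helper79_WRA

attribute [local instance] Ideal.Quotient.field

theorem ldp : LdpStmt := by
  intro ℓ hl M hM hlM G _ _ hop χ hχ e he h1
  have : Fact ℓ.Prime := ⟨hl⟩
  obtain ⟨-, -, p3, p4⟩ := Pool.Agent.Helper79_WRA.H83.pos ℓ M hlM G hop
  constructor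
  · intro hL x _ hx
    rw [inf_top_eq] at hx
    apply nil_of_zero he (isCl_clsum x) (isChar_res hχ) h1
    rw [res_clsum]
    exact p3 χ hχ hL x hx
  · intro hP
    by_contra hL
    obtain ⟨g, hg, hne⟩ := p4 χ hχ hL
    obtain ⟨n, hn⟩ := hP g (Subgroup.mem_top g) (by rw [inf_top_eq]; exact hg)
    apply hne
    rw [← res_clsum]
    exact zero_of_nil he.1.1 (isCl_clsum g) (isChar_res hχ) h1 hn

end Pool.Agent.PP.H50
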