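import Pool.Agent.Helper50_PP.Blk3
import Pool.Agent.Helper50_PP.Ffa
import Pool.Agent.Helper83_WRA.LabSum
import Pool.Agent.Helper83_WRA.Pos

/-!
# Squad PP, module TRF: chains and labels
-/

open scoped BigOperators

noncomputable section

namespace Pool.Agent.PP.H50

open Pool.Agent.PP Pool.Agent.Helper51_AWC Pool.Agent.Helper79_WRA

attribute [local instance] Ideal.Quotient.field

section dic

variable {G : Type} [Group G] [Finite G] {M : Ideal (integralClosure ℤ ℂ)} [hM : M.IsMaximal]

omit [Finite G] in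
theorem cl_restr {R : Type} {b : G → R} (hb : Cl b) (X : Subgroup G) :
    Cl (fun t : X => b t) := fun x y => hb x y

omit hM in
/-- restriction to the support -/
theorem res_restr {X : Subgroup G} {a : G → ℂ} (ha : a ∈ IrrS X) {b : G → FF M} (hb : Cl b) :
    res M b a = res M (fun t : X => b t) (fun t : X => a t) := by
  classical
  have := Fintype.ofFinite G
  have := Fintype.ofFinite X
  obtain ⟨c, hc, ec⟩ := exists_lift (M := M) hb
  have h1 : (fun t => Ideal.Quotient.mk M (c t)) = b := funext ec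
  have h2 := (res_lift (M := M) c hc a (fun g => omega_IrrS_integral ha g)).1
  have h3 := (res_lift (M := M) (fun t : X => c t) (cl_restr hc X) (fun t : X => a t)
    (fun g => omega_integral _ ha.2 g)).1
  have h4 : (fun t : X => Ideal.Quotient.mk M (c t)) = fun t : X => b t := by
    funext t
    exact ec t
  rw [h1] at h2
  rw [h4] at h3
  rw [h2, h3]
  congr 1
  unfold om
  congr 1
  have e0 : ∑ t : G, (c t : ℂ) * a t =
      ∑ t ∈ Finset.univ.filter (fun t : G => t ∈ X), (c t : ℂ) * a t := by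
    symm
    apply Finset.sum_subset (Finset.filter_subset _ _)
    intro t _ ht
    rw [Finset.mem_filter, not_and] at ht
    rw [ha.1 t (ht (Finset.mem_univ _)), mul_zero]
  rw [e0]
  apply Finset.sum_subtype
  intro t
  rw [Finset.mem_filter]
  exact ⟨fun h => h.2, fun h => ⟨Finset.mem_univ _, h⟩⟩

omit [Finite G] in
theorem br_cl {F : Type} [Field F] {R X : Subgroup G} (hX : X ≤ Subgroup.normalizer (R : Set G))
    {b : G → F} (hb : IsCl b) : IsCl (fun t : X => br R b t) := by
  intro x y
  have h1 : ∀ x y : G, y ∈ Subgroup.normalizer (R : Set G) →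
      x ∈ Subgroup.centralizer (R : Set G) → y * x * y⁻¹ ∈ Subgroup.centralizer (R : Set G) := by
    intro x y hy hx
    rw [Subgroup.mem_centralizer_iff] at hx ⊢
    intro r hr
    have h2 : y⁻¹ * r * y ∈ R := by
      have := (Subgroup.mem_normalizer_iff.1 (Subgroup.inv_mem _ hy) r).1 hr
      rwa [inv_inv] at this
    have h3 := hx _ h2
    calc r * (y * x * y⁻¹) = y * (y⁻¹ * r * y * x) * y⁻¹ := by group
      _ = y * (x * (y⁻¹ * r * y)) * y⁻¹ := by rw [h3]
      _ = y * x * y⁻¹ * r := by group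
  change br R b ((y * x * y⁻¹ : X) : G) = br R b (x : G)
  have hy := hX y.2
  by_cases hc : (x : G) ∈ Subgroup.centralizer (R : Set G)
  · have h2 : ((y * x * y⁻¹ : X) : G) ∈ Subgroup.centralizer (R : Set G) := h1 _ _ hy hc
    rw [br, br, if_pos h2, if_pos hc]
    exact hb _ _
  · have h2 : ((y * x * y⁻¹ : X) : G) ∉ Subgroup.centralizer (R : Set G) := by
      intro h
      apply hc
      have h3 := h1 _ _ (Subgroup.inv_mem _ hy) h
      have h4 : (y : G)⁻¹ * ((y * x * y⁻¹ : X) : G) * ((y : G)⁻¹)⁻¹ = x := by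
        push_cast
        group
      rwa [h4] at h3
    rw [br, br, if_neg h2, if_neg hc]

/-- the residue does not see the elements outside the centraliser of a normal `ℓ`-subgroup -/
theorem res_br {ℓ : ℕ} (hF : GoodF ℓ (FF M)) (hn : NlsStmt) (hi : IbnStmt) {R X : Subgroup G}
    (hR : IsPGroup ℓ R) (hRX : R ≤ X) (hX : X ≤ Subgroup.normalizer (R : Set G)) {b : G → FF M}
    (hb : IsCl b) {ϑ : X → ℂ} (hϑ : ϑ ∈ Irr X) :
    res M (fun t : X => b t) ϑ = res M (fun t : X => br R b t) ϑ := by
  have hbX : IsCl (fun t : X => b t) := fun x y => hb x y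
  have hbr := br_cl hX hb
  have hnorm : (R.subgroupOf X).Normal := by
    rw [Subgroup.normal_subgroupOf_iff hRX]
    intro h g hh hg
    exact (Subgroup.mem_normalizer_iff.1 (hX hg) h).1 hh
  have hp : IsPGroup ℓ (R.subgroupOf X) :=
    hR.of_equiv (Subgroup.subgroupOfEquivOfLe hRX).symm
  have hbr2 : br (R.subgroupOf X) (fun t : X => b t) = fun t : X => br R b t := by
    funext t
    have h1 : t ∈ Subgroup.centralizer ((R.subgroupOf X : Subgroup X) : Set X) ↔
        (t : G) ∈ Subgroup.centralizer (R : Set G) := by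
      rw [Subgroup.mem_centralizer_iff, Subgroup.mem_centralizer_iff]
      constructor
      · intro h r hr
        exact congrArg Subtype.val (h ⟨r, hRX hr⟩ hr)
      · intro h r hr
        exact Subtype.ext (h r hr)
    by_cases hc : (t : G) ∈ Subgroup.centralizer (R : Set G)
    · rw [br, br, if_pos (h1.2 hc), if_pos hc]
    · rw [br, br, if_neg (fun h => hc (h1.1 h)), if_neg hc]
  set c : X → FF M := (fun t : X => b t) - fun t : X => br R b t with hc
  have hcc : IsCl c := (cfs (FF M) X).sub_mem hbX hbr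
  have h1 : ∀ (n : ℕ) (ρ : X →* Matrix (Fin n) (Fin n) (FF M)), IsIrr ρ → ev ρ c = 0 := by
    intro n ρ hρ
    have h2 := ((hn ℓ (FF M) hF X (R.subgroupOf X) hnorm hp n ρ hρ).2 (fun t : X => b t) hbX).1
    rw [hbr2] at h2
    have h3 : ev ρ c = ev ρ (fun t : X => b t) - ev ρ (fun t : X => br R b t) := by
      rw [hc, sub_eq_add_neg, ← neg_one_smul (FF M) (fun t : X => br R b t), ev_add, ev_smul,
        neg_one_smul, sub_eq_add_neg]
    rw [h3, h2, sub_self]
  obtain ⟨k, hk⟩ := hi ℓ (FF M) hF X c h1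
  have h2 := ((isChar_res (M := M) hϑ).iterate hcc hcc k).2
  rw [hk, (isChar_res (M := M) hϑ).zero, ← pow_succ] at h2
  have h3 : res M c ϑ = 0 := eq_zero_of_pow_eq_zero h2.symm
  rw [hc] at h3
  have h4 := (isChar_res (M := M) hϑ).sub _ _ hbX hbr
  exact sub_eq_zero.1 (h4.symm.trans h3)

/-- the properties of a normal chain -/
theorem chain_top {ℓ : ℕ} {d : Finset (Subgroup G)}
    (hd : d ∈ chainsOn (psubIn ℓ (⊤ : Subgroup G)) ⊥) (hn : NormalChain d) :
    top d ∈ d ∧ IsPGroup ℓ (top d) ∧ Subgroup.centralizer ((top d : Subgroup G) : Set G) ≤ stab d ∧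
      stab d ≤ Subgroup.normalizer ((top d : Subgroup G) : Set G) ∧ top d ≤ stab d := by
  obtain ⟨h1, h2, h3⟩ := mem_chainsOn.1 hd
  obtain ⟨x, hx, hmax⟩ := exists_greatest h3 ⟨⊥, h2⟩
  have h4 : top d = x := le_antisymm (sSup_le fun y hy => hmax y hy) (le_sSup hx)
  have h5 : top d ∈ d := by rw [h4]; exact hx
  refine ⟨h5, (mem_psubIn.1 (h1 h5)).2, ?_, ?_, ?_⟩
  · apply le_iInf₂
    intro D hD
    have h6 : D ≤ top d := le_sSup hD
    refine le_trans (Subgroup.centralizer_le (show (D : Set G) ⊆ top d from h6)) ?_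
    intro g hg
    rw [Subgroup.mem_normalizer_iff]
    intro y
    rw [Subgroup.mem_centralizer_iff] at hg
    constructor
    · intro hy
      have := hg y hy
      rw [← this, mul_inv_cancel_right]
      exact hy
    · intro hy
      have h7 := hg _ hy
      have h8 : g * y * g⁻¹ * g = g * (g * y * g⁻¹) := h7
      have h9 : y = g * y * g⁻¹ := by
        have : g * y = g * (g * y * g⁻¹) := by rw [← h8]; group
        exact mul_left_cancel this
      rw [h9]
      exact hy
  · exact iInf₂_le (top d) h5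
  · exact le_iInf₂ fun D hD => hn D hD

/-- the central character of `G` defined by a character of the stabiliser of a normal chain -/
theorem isChar_chain {ℓ : ℕ} (hF : GoodF ℓ (FF M)) (hn : NlsStmt) (hi : IbnStmt) (hb : BrmStmt)
    {d : Finset (Subgroup G)} (hd : d ∈ chainsOn (psubIn ℓ (⊤ : Subgroup G)) ⊥)
    (hnc : NormalChain d) {a : G → ℂ} (ha : a ∈ IrrS (stab d)) :
    IsChar (fun b : G → FF M => res M b a) := by
  have := Fintype.ofFinite G
  obtain ⟨-, h2, h3, h4, h5⟩ := chain_top hd hnc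
  refine ⟨fun b c _ _ => res_sub b c a, fun c b _ => res_smul c b a, ?_⟩
  intro b c hb' hc'
  have hB := hb ℓ (FF M) hF G (top d) (stab d) h2 h3 h4
  have hred : ∀ x : G → FF M, IsCl x →
      res M x a = res M (fun t : stab d => br (top d) x t) (fun t : stab d => a t) := by
    intro x hx
    rw [res_restr ha hx, res_br hF hn hi h2 h5 h4 hx ha.2]
  change res M (mulF b c) a = res M b a * res M c a
  rw [hred _ (isCl_mulF hb' hc'), hred _ hb', hred _ hc', hB.1 b c hb' hc', hB.2.1 b c]
  have := Fintype.ofFinite (stab d)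
  exact res_mul (br_cl h4 hb') (br_cl h4 hc') ha.2

theorem dic_main {ℓ : ℕ} (hF : GoodF ℓ (FF M)) (hn : NlsStmt) (hi : IbnStmt) (hb : BrmStmt)
    {χ : G → ℂ} (hχ : χ ∈ Irr G) {e : G → FF M} (he : IsBlk e) (h1 : res M e χ = 1)
    {d : Finset (Subgroup G)} (hd : d ∈ chainsOn (psubIn ℓ (⊤ : Subgroup G)) ⊥)
    (hnc : NormalChain d) :
    {a | a ∈ IrrS (stab d) ∧ labF M a = labF M χ}.ncard =
      rk (fun t : stab d => br (top d) e t) (cfs (FF M) (stab d)) := by
  have := Fintype.ofFinite G
  have := Fintype.ofFinite (stab d)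
  obtain ⟨-, h2, h3, h4, h5⟩ := chain_top hd hnc
  have hB := hb ℓ (FF M) hF G (top d) (stab d) h2 h3 h4
  have he' : IsIdem (fun t : stab d => br (top d) e t) := hB.2.2 e he.1
  rw [chp_main (M := M) he']
  have hlab : ∀ a ∈ IrrS (stab d), (labF M a = labF M χ ↔
      res M (fun t : stab d => br (top d) e t) (fun t : stab d => a t) = 1) := by
    intro a ha
    have hred : res M e a =
        res M (fun t : stab d => br (top d) e t) (fun t : stab d => a t) := by
      rw [res_restr ha he.1.1, res_br hF hn hi h2 h5 h4 he.1.1 ha.2]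
    rw [← hred]
    constructor
    · intro h
      rw [res_of_lab h, h1]
    · intro h
      funext g
      rw [← res_clsum]
      exact lab_of_res he (isChar_chain hF hn hi hb hd hnc ha) h hχ h1 g
  apply Set.ncard_congr (fun a _ => fun t : stab d => a t)
  · rintro a ⟨ha, hl⟩
    exact ⟨ha.2, (hlab a ha).1 hl⟩
  · rintro a b ⟨ha, -⟩ ⟨hb, -⟩ hab
    exact IrrS_ext ha hb fun x => congrFun hab x
  · rintro ϑ ⟨hϑ, hr⟩
    obtain ⟨a, ha, hx⟩ := exists_IrrS (stab d) hϑ
    have hfun : (fun t : stab d => a t) = ϑ := funext hx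
    refine ⟨a, ⟨ha, (hlab a ha).2 ?_⟩, hfun⟩
    rw [hfun]
    exact hr

end dic

theorem dic (hi : IbnStmt) (hn : NlsStmt) (hb : BrmStmt) : DicStmt := by
  intro ℓ hl M hM hlM G _ _ χ hχ e he h1 _ d hd hnc
  exact dic_main (fld ℓ hl M hlM) hn hi hb hχ he h1 hd hnc

end Pool.Agent.PP.H50
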