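import Pool.Agent.Helper50_PP.Chi
import Pool.Agent.Helper79_WRA.Basic

/-!
# Squad PP, module TRF: residues of central characters
-/

open scoped BigOperators
open Polynomial

noncomputable section

namespace Pool.Agent.PP.H50

open Pool.Agent.PP Pool.Agent.Helper51_AWC Pool.Agent.Helper79_WRA

attribute [local instance] Ideal.Quotient.field

section res

variable {H : Type} [Group H] [Fintype H]

/-- class functions -/
def Cl {R : Type} (a : H → R) : Prop := ∀ x y, a (y * x * y⁻¹) = a x

omit [Fintype H] in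
theorem cl_out {R : Type} {a : H → R} (ha : Cl a) (x : H) :
    a (Quotient.out (ConjClasses.mk x)) = a x := by
  obtain ⟨h, hh⟩ := exists_out x
  rw [← hh, ha]

theorem om_classes [Fintype (ConjClasses H)] {a : H → ℂ} (ha : Cl a) (ϑ : H → ℂ) :
    om a ϑ = ∑ c : ConjClasses H, a (Quotient.out c) *
      omega (MonoidHom.id H) ϑ (Quotient.out c) := by
  classical
  rw [om, ← Finset.sum_fiberwise Finset.univ (fun g : H => ConjClasses.mk g), Finset.sum_div]
  refine Finset.sum_congr rfl fun K _ => ?_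
  have hK : ConjClasses.mk (Quotient.out K) = K := Quotient.out_eq K
  rw [omega_eq]
  have h1 : ∀ g ∈ Finset.univ.filter (fun g : H => ConjClasses.mk g = K),
      a g * ϑ g = a (Quotient.out K) * ϑ g := by
    intro g hg
    have hg' := (Finset.mem_filter.1 hg).2
    rw [← cl_out ha g, hg']
  rw [Finset.sum_congr rfl h1, ← Finset.mul_sum, Finset.sum_filter, mul_div_assoc]
  congr 2
  refine Finset.sum_congr rfl fun g _ => ?_
  have : ConjClasses.mk g = K ↔ IsConj (Quotient.out K) g := by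
    conv_lhs => rw [← hK]
    rw [ConjClasses.mk_eq_mk_iff_isConj]
    exact ⟨fun h => h.symm, fun h => h.symm⟩
  simp only [this, MonoidHom.id_apply]

variable {M : Ideal (integralClosure ℤ ℂ)}

omit [Fintype H] in
/-- lift of a class function -/
theorem exists_lift {b : H → FF M} (hb : Cl b) :
    ∃ a : H → integralClosure ℤ ℂ, Cl a ∧ ∀ t, Ideal.Quotient.mk M (a t) = b t := by
  have h : ∀ w : FF M, ∃ z, Ideal.Quotient.mk M z = w := Ideal.Quotient.mk_surjective
  choose L hL using h
  exact ⟨fun t => L (b t), fun x y => congrArg L (hb x y), fun t => hL _⟩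

theorem res_lift (a : H → integralClosure ℤ ℂ) (ha : Cl a) (ϑ : H → ℂ)
    (hϑ : ∀ g, IsIntegral ℤ (omega (MonoidHom.id H) ϑ g)) :
    res M (fun t => Ideal.Quotient.mk M (a t)) ϑ = red M (om (fun t => (a t : ℂ)) ϑ) ∧
    IsIntegral ℤ (om (fun t => (a t : ℂ)) ϑ) := by
  classical
  have := Fintype.ofFinite (ConjClasses H)
  rw [om_classes (fun x y => by rw [ha]) ϑ]
  constructor
  · rw [red_sum, res, finsum_eq_sum_of_fintype]
    · refine Finset.sum_congr rfl fun c _ => ?_
      rw [red_mul (a _).2 (hϑ _), red_of (a _).2]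
    · intro c _
      exact (a _).2.mul (hϑ _)
  · exact IsIntegral.sum _ fun c _ => (a _).2.mul (hϑ _)

theorem res_irr (a : H → integralClosure ℤ ℂ) (ha : Cl a) {χ : H → ℂ} (hχ : χ ∈ Irr H) :
    res M (fun t => Ideal.Quotient.mk M (a t)) χ = red M (om (fun t => (a t : ℂ)) χ) ∧
    IsIntegral ℤ (om (fun t => (a t : ℂ)) χ) :=
  res_lift a ha χ (fun g => omega_integral _ hχ g)

theorem res_add (a b : H → FF M) (ϑ : H → ℂ) : res M (a + b) ϑ = res M a ϑ + res M b ϑ := by
  classical
  have := Fintype.ofFinite (ConjClasses H)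
  simp only [res, finsum_eq_sum_of_fintype, Pi.add_apply, add_mul, Finset.sum_add_distrib]

theorem res_smul (c : FF M) (a : H → FF M) (ϑ : H → ℂ) : res M (c • a) ϑ = c * res M a ϑ := by
  classical
  have := Fintype.ofFinite (ConjClasses H)
  simp only [res, finsum_eq_sum_of_fintype, Pi.smul_apply, smul_eq_mul, mul_assoc,
    Finset.mul_sum]

theorem res_zero (ϑ : H → ℂ) : res M (0 : H → FF M) ϑ = 0 := by
  classical
  have := Fintype.ofFinite (ConjClasses H)
  simp only [res, finsum_eq_sum_of_fintype, Pi.zero_apply, zero_mul, Finset.sum_const_zero]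

theorem res_sub (a b : H → FF M) (ϑ : H → ℂ) : res M (a - b) ϑ = res M a ϑ - res M b ϑ := by
  classical
  have := Fintype.ofFinite (ConjClasses H)
  simp only [res, finsum_eq_sum_of_fintype, Pi.sub_apply, sub_mul, Finset.sum_sub_distrib]

variable [hM : M.IsMaximal]

theorem res_mul {a b : H → FF M} (ha : IsCl a) (hb : IsCl b) {χ : H → ℂ} (hχ : χ ∈ Irr H) :
    res M (mulF a b) χ = res M a χ * res M b χ := by
  obtain ⟨a', ha', ea⟩ := exists_lift (M := M) (b := a) ha
  obtain ⟨b', hb', eb⟩ := exists_lift (M := M) (b := b) hb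
  have h1 : Cl (fun y => ∑ h, a' h * b' (h⁻¹ * y)) := by
    intro x y
    change ∑ h, a' h * b' (h⁻¹ * (y * x * y⁻¹)) = ∑ h, a' h * b' (h⁻¹ * x)
    rw [← Equiv.sum_comp (MulAut.conj y).toEquiv (fun h => a' h * b' (h⁻¹ * (y * x * y⁻¹)))]
    refine Finset.sum_congr rfl fun h _ => ?_
    change a' (y * h * y⁻¹) * b' ((y * h * y⁻¹)⁻¹ * (y * x * y⁻¹)) = _
    have h2 : (y * h * y⁻¹)⁻¹ * (y * x * y⁻¹) = y * (h⁻¹ * x) * y⁻¹ := by group
    rw [h2, ha', hb']
  have h2 : mulF a b = fun y => Ideal.Quotient.mk M (∑ h, a' h * b' (h⁻¹ * y)) := by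
    funext y
    rw [mulF, finsum_eq_sum_of_fintype, map_sum]
    refine Finset.sum_congr rfl fun h _ => ?_
    rw [map_mul, ea, eb]
  have h3 : (fun t => Ideal.Quotient.mk M (a' t)) = a := funext ea
  have h4 : (fun t => Ideal.Quotient.mk M (b' t)) = b := funext eb
  obtain ⟨k1, i1⟩ := res_irr (M := M) a' ha' hχ
  obtain ⟨k2, i2⟩ := res_irr (M := M) b' hb' hχ
  obtain ⟨k3, -⟩ := res_irr (M := M) _ h1 hχ
  rw [h2, k3, ← h3, ← h4, k1, k2, ← red_mul i1 i2]
  congr 1
  rw [← om_mul (fun x y => by rw [hb']) hχ]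
  congr 1
  funext y
  push_cast
  rfl

theorem res_one {ϑ : H → ℂ} (h1 : ϑ 1 ≠ 0) (hϑ : ∀ g, IsIntegral ℤ (omega (MonoidHom.id H) ϑ g)) :
    res M (dl (FF M) (1 : H)) ϑ = 1 := by
  classical
  have h2 : Cl (fun t : H => if t = 1 then (1 : integralClosure ℤ ℂ) else 0) := by
    intro x y
    have : y * x * y⁻¹ = 1 ↔ x = 1 := by
      constructor
      · intro h
        have : x = y⁻¹ * (y * x * y⁻¹) * y := by group
        rw [this, h]; group
      · rintro rfl; group
    simp only [this]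
  have h3 : dl (FF M) (1 : H) = fun t => Ideal.Quotient.mk M
      (if t = 1 then (1 : integralClosure ℤ ℂ) else 0) := by
    funext t
    rw [dl]
    split_ifs
    · rw [map_one]
    · rw [map_zero]
  rw [h3, (res_lift _ h2 ϑ hϑ).1]
  have h4 : om (fun t : H => ((if t = 1 then (1 : integralClosure ℤ ℂ) else 0 :
      integralClosure ℤ ℂ) : ℂ)) ϑ = 1 := by
    rw [om, Finset.sum_eq_single_of_mem 1 (Finset.mem_univ _)]
    · rw [if_pos rfl]
      simp [h1]
    · intro b _ hb
      rw [if_neg hb]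
      simp
  rw [h4, red_one]

theorem res_iterate {a b : H → FF M} (ha : IsCl a) (hb : IsCl b) {χ : H → ℂ} (hχ : χ ∈ Irr H)
    (n : ℕ) : IsCl ((mulF a)^[n] b) ∧
      res M ((mulF a)^[n] b) χ = res M a χ ^ n * res M b χ := by
  have hc : ∀ {a b : H → FF M}, IsCl a → IsCl b → IsCl (mulF a b) := by
    intro a b ha hb
    rw [isCl_iff] at ha hb ⊢
    rw [ma_mul]
    exact Subalgebra.mul_mem _ ha hb
  induction n with
  | zero =>
    rw [Function.iterate_zero, pow_zero, one_mul]
    exact ⟨hb, rfl⟩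
  | succ n ih =>
    rw [Function.iterate_succ_apply', res_mul ha ih.1 hχ, ih.2, pow_succ']
    exact ⟨hc ha ih.1, by ring⟩

theorem res_idem {e : H → FF M} (he : IsIdem e) {χ : H → ℂ} (hχ : χ ∈ Irr H) :
    res M e χ = 0 ∨ res M e χ = 1 := by
  have h1 := res_mul he.1 he.1 hχ
  rw [he.2] at h1
  have h2 : res M e χ * (res M e χ - 1) = 0 := by
    rw [mul_sub, ← h1]; ring
  rcases mul_eq_zero.1 h2 with h | h
  · left; exact h
  · right; exact sub_eq_zero.1 h

/-- CHP for one group -/
theorem chp_main {e : H → FF M} (he : IsIdem e) :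
    rk e (cfs (FF M) H) = {ϑ : H → ℂ | ϑ ∈ Irr H ∧ res M e ϑ = 1}.ncard := by
  classical
  have := Fintype.ofFinite (ConjClasses H)
  have := Fintype.ofFinite (Irr H)
  rw [rk_eq he.1, rank_eq_rootMult (NN_idem he)]
  obtain ⟨a, ha, ea⟩ := exists_lift (M := M) (b := e) he.1
  have hr : ∀ χ : Irr H, IsIntegral ℤ (om (fun t => (a t : ℂ)) (χ : H → ℂ)) :=
    fun χ => (res_irr (M := M) a ha χ.2).2
  have h1 : (NN a).charpoly = ∏ χ : Irr H, (X - C (⟨_, hr χ⟩ : integralClosure ℤ ℂ)) := by
    have hinj : Function.Injective (algebraMap (integralClosure ℤ ℂ) ℂ) :=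
      Subtype.val_injective
    apply Polynomial.map_injective _ hinj
    rw [← Matrix.charpoly_map, NN_map, Polynomial.map_prod]
    have h2 := charpoly_NN (H := H) (a := fun t => (a t : ℂ)) (fun x y => by rw [ha])
    refine Eq.trans h2 ?_
    refine Finset.prod_congr rfl fun χ _ => ?_
    rw [Polynomial.map_sub, Polynomial.map_X, Polynomial.map_C]
    rfl
  have h2 : (NN e).charpoly = ∏ χ : Irr H, (X - C (res M e χ)) := by
    have h3 : NN e = (NN a).map (Ideal.Quotient.mk M) := by
      rw [NN_map]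
      congr 1
      exact (funext ea).symm
    have h4 : (fun t => Ideal.Quotient.mk M (a t)) = e := funext ea
    rw [h3, Matrix.charpoly_map, h1, Polynomial.map_prod]
    refine Finset.prod_congr rfl fun χ _ => ?_
    rw [Polynomial.map_sub, Polynomial.map_X, Polynomial.map_C, ← h4,
      (res_irr (M := M) a ha χ.2).1, red_of (hr χ)]
  have h5 : (∏ χ : Irr H, (X - C (res M e χ))).roots =
      Finset.univ.val.map (fun χ : Irr H => res M e χ) := by
    rw [Finset.prod_eq_multiset_prod]
    have h6 : Multiset.map (fun χ : Irr H => X - C (res M e χ)) Finset.univ.val =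
        Multiset.map (fun w : FF M => X - C w)
          (Multiset.map (fun χ : Irr H => res M e χ) Finset.univ.val) := by
      rw [Multiset.map_map]
      rfl
    rw [h6, Polynomial.roots_multiset_prod_X_sub_C]
  rw [h2, ← Polynomial.count_roots, h5, Multiset.count_map]
  have h6 : {ϑ : H → ℂ | ϑ ∈ Irr H ∧ res M e ϑ = 1} =
      (fun χ : Irr H => (χ : H → ℂ)) '' {χ : Irr H | res M e χ = 1} := by
    ext ϑ
    constructor
    · rintro ⟨h7, h8⟩
      exact ⟨⟨ϑ, h7⟩, h8, rfl⟩
    · rintro ⟨χ, h7, rfl⟩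
      exact ⟨χ.2, h7⟩
  rw [h6, Set.ncard_image_of_injective _ Subtype.val_injective]
  have h7 : {χ : Irr H | res M e χ = 1} =
      (Finset.univ.filter (fun χ : Irr H => 1 = res M e χ) : Finset (Irr H)) := by
    ext χ
    simp only [Set.mem_ofPred_eq, Finset.coe_filter, Finset.mem_univ, true_and, eq_comm]
  rw [h7, Set.ncard_coe_finset]
  rfl

end res

end Pool.Agent.PP.H50
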