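import Pool.Agent.Helper94_PP.StmtsKR
import Pool.Agent.Helper94_PP.Bridge

/-!
# Squad PP, module TRF: the matrix of a class function on the class functions
-/

open scoped BigOperators
open Polynomial

noncomputable section

namespace Pool.Agent.PP.H50

open Pool.Agent.PP Pool.Agent.Helper51_AWC Pool.Agent.Helper79_WRA

section mat

variable {H : Type} [Group H] [Fintype H] [Fintype (ConjClasses H)] [DecidableEq (ConjClasses H)]

/-- the matrix of the action of `a` on class functions -/
def NN {R : Type} [CommRing R] (a : H → R) : Matrix (ConjClasses H) (ConjClasses H) R :=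
  fun c c' => ∑ t, a t * (if ConjClasses.mk (t * Quotient.out c) = c' then 1 else 0)

theorem NN_mulVec {R : Type} [CommRing R] (a : H → R) (g : ConjClasses H → R)
    (c : ConjClasses H) :
    (NN a).mulVec g c = ∑ t, a t * g (ConjClasses.mk (t * Quotient.out c)) := by
  simp only [Matrix.mulVec, dotProduct, NN, Finset.sum_mul]
  rw [Finset.sum_comm]
  refine Finset.sum_congr rfl fun t _ => ?_
  rw [Finset.sum_eq_single (ConjClasses.mk (t * Quotient.out c))]
  · rw [if_pos rfl, mul_one]
  · intro b _ hb
    rw [if_neg (Ne.symm hb), mul_zero, zero_mul]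
  · intro h
    exact absurd (Finset.mem_univ _) h

omit [Fintype (ConjClasses H)] in
theorem NN_map {R S : Type} [CommRing R] [CommRing S] (f : R →+* S) (a : H → R) :
    (NN a).map f = NN (fun t => f (a t)) := by
  ext c c'
  simp only [Matrix.map_apply, NN, map_sum, map_mul]
  refine Finset.sum_congr rfl fun t _ => ?_
  split_ifs
  · rw [map_one]
  · rw [map_zero]

omit [Fintype H] [Fintype (ConjClasses H)] [DecidableEq (ConjClasses H)] in
theorem exists_out (x : H) : ∃ h : H, h * x * h⁻¹ = Quotient.out (ConjClasses.mk x) := by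
  have h1 : ConjClasses.mk (Quotient.out (ConjClasses.mk x)) = ConjClasses.mk x :=
    Quotient.out_eq _
  exact isConj_iff.1 (ConjClasses.mk_eq_mk_iff_isConj.1 h1.symm)

theorem sum_mk {R : Type} [CommRing R] {a : H → R} (ha : ∀ x y, a (y * x * y⁻¹) = a x)
    (g : ConjClasses H → R) (x : H) :
    ∑ t, a t * g (ConjClasses.mk (t * x)) = (NN a).mulVec g (ConjClasses.mk x) := by
  rw [NN_mulVec]
  obtain ⟨h, hh⟩ := exists_out x
  rw [← hh, ← Equiv.sum_comp (MulAut.conj h).toEquiv
    (fun t => a t * g (ConjClasses.mk (t * (h * x * h⁻¹))))]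
  refine Finset.sum_congr rfl fun t _ => ?_
  change _ = a (h * t * h⁻¹) * g (ConjClasses.mk (h * t * h⁻¹ * (h * x * h⁻¹)))
  rw [ha]
  congr 2
  rw [ConjClasses.mk_eq_mk_iff_isConj]
  refine isConj_iff.2 ⟨h, ?_⟩
  group

variable {F : Type} [Field F]

omit [Fintype (ConjClasses H)] [DecidableEq (ConjClasses H)] [Fintype H] in
theorem cfs_eq : cfs F H = LinearMap.range (LinearMap.funLeft F F (ConjClasses.mk (α := H))) := by
  ext f
  constructor
  · intro hf
    refine ⟨fun c => f (Quotient.out c), ?_⟩
    funext x
    rw [LinearMap.funLeft_apply]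
    obtain ⟨h, hh⟩ := exists_out x
    rw [← hh]
    exact hf x h
  · rintro ⟨g, rfl⟩ x y
    rw [LinearMap.funLeft_apply, LinearMap.funLeft_apply]
    congr 1
    rw [ConjClasses.mk_eq_mk_iff_isConj]
    exact (isConj_iff.2 ⟨y, rfl⟩ : IsConj x _).symm

theorem actF_mk {a : H → F} (ha : IsCl a) (g : ConjClasses H → F) :
    actF a (fun x => g (ConjClasses.mk x)) = fun x => (NN a).mulVec g (ConjClasses.mk x) := by
  funext x
  rw [actF, finsum_eq_sum_of_fintype]
  exact sum_mk ha g x

theorem rk_eq {a : H → F} (ha : IsCl a) : rk a (cfs F H) = (NN a).rank := by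
  rw [rk, cfs_eq, ← LinearMap.range_comp]
  have h1 : (actL a).comp (LinearMap.funLeft F F (ConjClasses.mk (α := H))) =
      (LinearMap.funLeft F F (ConjClasses.mk (α := H))).comp (NN a).mulVecLin := by
    apply LinearMap.ext
    intro g
    exact actF_mk ha g
  rw [h1, LinearMap.range_comp, Matrix.rank]
  exact (Submodule.equivMapOfInjective _
    (LinearMap.funLeft_injective_of_surjective F F _ ConjClasses.mk_surjective) _).finrank_eq.symm

theorem NN_idem {e : H → F} (he : IsIdem e) : NN e * NN e = NN e := by
  apply Matrix.ext_of_mulVec_single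
  intro i
  rw [← Matrix.mulVec_mulVec]
  have hinj := LinearMap.funLeft_injective_of_surjective F F _
    (ConjClasses.mk_surjective (α := H))
  apply hinj
  have h1 : ∀ g : ConjClasses H → F, LinearMap.funLeft F F (ConjClasses.mk (α := H))
      ((NN e).mulVec g) = actF e (LinearMap.funLeft F F (ConjClasses.mk (α := H)) g) :=
    fun g => (actF_mk he.1 g).symm
  rw [h1, h1, ← actF_mulF, he.2]

theorem rank_eq_rootMult {n : Type} [Fintype n] [DecidableEq n] {N : Matrix n n F}
    (hN : N * N = N) : N.rank = N.charpoly.rootMultiplicity 1 := by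
  have h1 := LinearMap.finrank_maxGenEigenspace_eq (Matrix.toLin' N) (1 : F)
  have h2 : (Matrix.toLin' N).charpoly = N.charpoly := by
    rw [← LinearMap.charpoly_toMatrix (Matrix.toLin' N) (Pi.basisFun F n)]
    congr 1
    exact LinearMap.toMatrix'_toLin' N
  rw [h2] at h1
  rw [← h1]
  have h3 : Module.End.maxGenEigenspace (Matrix.toLin' N) 1 = LinearMap.range N.mulVecLin := by
    have hidem : ∀ x, N.mulVec (N.mulVec x) = N.mulVec x := by
      intro x
      rw [Matrix.mulVec_mulVec, hN]
    ext x
    rw [Module.End.mem_maxGenEigenspace]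
    constructor
    · rintro ⟨k, hk⟩
      have h4 : ∀ k : ℕ, ∀ x, ((Matrix.toLin' N - (1 : F) • 1) ^ k) x = 0 → N.mulVec x = x := by
        intro k
        induction k with
        | zero =>
          intro x hx
          have : x = 0 := hx
          rw [this, Matrix.mulVec_zero]
        | succ k ih =>
          intro x hx
          rw [pow_succ, Module.End.mul_apply] at hx
          have h5 := ih _ hx
          have h6 : (Matrix.toLin' N - (1 : F) • 1) x = N.mulVec x - x := by
            rw [one_smul]
            rfl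
          rw [h6, Matrix.mulVec_sub, hidem, sub_self] at h5
          exact (sub_eq_zero.1 h5.symm)
      exact ⟨x, h4 k x hk⟩
    · rintro ⟨y, rfl⟩
      refine ⟨1, ?_⟩
      rw [pow_one, one_smul]
      change N.mulVec (N.mulVec y) - N.mulVec y = 0
      rw [hidem, sub_self]
  rw [h3]
  rfl

end mat

end Pool.Agent.PP.H50
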