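import Pool.Agent.Helper50_PP.Dic
import Pool.Agent.Helper50_PP.Ldp

/-!
# Squad PP, module TRF: the alternating sum of the problem
-/

open scoped BigOperators

noncomputable section

namespace Pool.Agent.PP.H50

open Pool.Agent.PP Pool.Agent.Helper51_AWC Pool.Agent.Helper79_WRA

attribute [local instance] Ideal.Quotient.field

theorem psub_eq_psubIn {ℓ : ℕ} {G : Type} [Group G] [Finite G] (h : opCore ℓ G = ⊥) :
    psub ℓ G = psubIn ℓ (⊤ : Subgroup G) := by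
  ext D
  rw [mem_psub, mem_psubIn, h]
  exact ⟨fun h => ⟨le_top, h.2⟩, fun h => ⟨bot_le, h.2⟩⟩

open Classical in
theorem trf_main {ℓ : ℕ} (hl : ℓ.Prime) {M : Ideal (integralClosure ℤ ℂ)} [M.IsMaximal]
    (hlM : (ℓ : integralClosure ℤ ℂ) ∈ M) (hc : NchStmt) (hk : KnrStmt) (hi : IbnStmt)
    (hn : NlsStmt) (hb : BrmStmt) {G : Type} [Group G] [Finite G] (hop : opCore ℓ G = ⊥)
    {χ : G → ℂ} (hχ : χ ∈ Irr G) {e : G → FF M} (he : IsBlk e) (h1 : res M e χ = 1) :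
    (Nat.card G : ℤ) * altSum ℓ M χ = YY ℓ ⊤ e := by
  have : Fact ℓ.Prime := ⟨hl⟩
  have hF : GoodF ℓ (FF M) := fld ℓ hl M hlM
  rw [← Pool.Agent.Helper79_WRA.H83.labSum ℓ M G hop χ hχ, psub_eq_psubIn hop]
  rw [hc ℓ G ⊤ (fun S _ => (Nat.card S : ℤ) *
    (({a | a ∈ IrrS S ∧ labF M a = labF M χ}.ncard : ℕ) : ℤ))]
  rw [← hk ℓ (FF M) hF G e he.1]
  rw [hc ℓ G ⊤ (fun S T => (Nat.card S : ℤ) *
    (rk (fun t : S => br T e t) (cfs (FF M) S) : ℤ))]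
  apply Finset.sum_congr rfl
  intro d hd
  rw [Finset.mem_filter] at hd
  rw [dic_main hF hn hi hb hχ he h1 hd.1 hd.2]

theorem trf (hc : NchStmt) (hk : KnrStmt) (hi : IbnStmt) (hn : NlsStmt) (hb : BrmStmt) :
    TrfStmt := by
  intro ℓ hl M hM hlM G _ _ hop χ hχ
  obtain ⟨e, he, h1, -⟩ := bid ℓ hl M hlM G χ hχ
  exact ⟨e, he, ldp ℓ hl M hlM G hop χ hχ e he h1, trf_main hl hlM hc hk hi hn hb hop hχ he h1⟩

end Pool.Agent.PP.H50
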